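import Pool.Agent.MP_8db1a4_gt.Final

/-!
# MP_8db1a4_gt: cohomological dimension and the conical limit set of Kleinian groups

`cd_ℤ (G) ≤ Hdim (Λ_c (G)) + 1` for every discrete torsion-free group `G` of isometries of `ℍⁿ` without `ℤ²`; `G` need not be
finitely generated. Ball model: `g` is an isometry of the hyperbolic metric iff it preserves
`‖x - y‖² / ((1 - ‖x‖²) (1 - ‖y‖²))`.
-/

set_option autoImplicit false
open scoped ENNReal Topology

namespace Pool.Agent.Results.MP_8db1a4_gt.CdLeHdim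

/-- the unit ball of `ℝⁿ` (the ball model of hyperbolic space) -/
abbrev Ball (n : ℕ) : Type := ↥(Metric.ball (0 : EuclideanSpace ℝ (Fin n)) 1)

/-- the centre of the ball -/
abbrev centre (n : ℕ) : Ball n := ⟨0, Metric.mem_ball_self zero_lt_one⟩

/-- the bijection `g` of the ball is an isometry of the hyperbolic metric -/
def HypIso {n : ℕ} (g : Equiv.Perm (Ball n)) : Prop :=
  ∀ x y : Ball n,
    ‖((g x : EuclideanSpace ℝ (Fin n)) - (g y : EuclideanSpace ℝ (Fin n)))‖ ^ 2 *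
        ((1 - ‖(x : EuclideanSpace ℝ (Fin n))‖ ^ 2) * (1 - ‖(y : EuclideanSpace ℝ (Fin n))‖ ^ 2))
      = ‖((x : EuclideanSpace ℝ (Fin n)) - (y : EuclideanSpace ℝ (Fin n)))‖ ^ 2 *
        ((1 - ‖(g x : EuclideanSpace ℝ (Fin n))‖ ^ 2) * (1 - ‖(g y : EuclideanSpace ℝ (Fin n))‖ ^ 2))

/-- the conical limit set: unit vectors `ξ` such that, for some constant `C`, there are `u k ∈ G` and `t k ∈ [0, 1)`, `t k → 1`,
for which the orbit point `u k 0` is within bounded hyperbolic distance of the point `t k ξ` of the ray to `ξ`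
(`‖a - b‖² ≤ C (1 - ‖a‖²) (1 - ‖b‖²)`) -/
def conicalLimitSet {n : ℕ} (G : Subgroup (Equiv.Perm (Ball n))) :
    Set (EuclideanSpace ℝ (Fin n)) :=
  {ξ | ‖ξ‖ = 1 ∧ ∃ C : ℝ, ∃ u : ℕ → ↥G, ∃ t : ℕ → ℝ,
    (∀ k, 0 ≤ t k ∧ t k < 1) ∧ Filter.Tendsto t Filter.atTop (𝓝 1) ∧
      ∀ k, ‖((((u k : ↥G) : Equiv.Perm (Ball n)) (centre n) : EuclideanSpace ℝ (Fin n)) -
          t k • ξ)‖ ^ 2 ≤
        C * ((1 - ‖((((u k : ↥G) : Equiv.Perm (Ball n)) (centre n) :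
          EuclideanSpace ℝ (Fin n)))‖ ^ 2) * (1 - t k ^ 2))}

/-- `cd_ℤ (G) ≤ Hdim (Λ_c (G)) + 1`: if `H^m (G, M) ≠ 0` for some `ℤG`-module `M`, then
`m ≤ Hdim (Λ_c (G)) + 1`. No finite generation is assumed. -/
theorem result (n : ℕ) (hn : 2 ≤ n) (G : Subgroup (Equiv.Perm (Ball n)))
    (hG : ∀ g ∈ G, HypIso g)
    (hdisc : ∀ r : ℝ, r < 1 →
      {g : ↥G | ‖((g : Equiv.Perm (Ball n)) (centre n) : EuclideanSpace ℝ (Fin n))‖ ≤ r}.Finite)
    (htf : ∀ g : ↥G, ∀ k : ℕ, 0 < k → g ^ k = 1 → g = 1)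
    (hZ : ∀ f : Multiplicative (ℤ × ℤ) →* ↥G, ¬ Function.Injective f)
    (m : ℕ) (M : Rep ℤ ↥G) (hM : Nontrivial (groupCohomology M m)) :
    (m : ℝ≥0∞) ≤ dimH (conicalLimitSet G) + 1 := by
  obtain ⟨ρ, h, hdis, hsub⟩ := Pool.Agent.MP_8db1a4_gt.exists_lorAction n hn G hG hdisc
  refine le_trans ?_ (add_le_add_left (dimH_mono hsub) 1)
  by_contra hcon
  push Not at hcon
  rcases Nat.lt_or_ge m 2 with hm | hm
  · have h1 : (m : ℝ≥0∞) ≤ 1 := by
      exact_mod_cast (by omega : m ≤ 1)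
    exact absurd (h1.trans (le_add_of_nonneg_left zero_le)) (not_le.mpr hcon)
  · refine Pool.Agent.MP_8db1a4_gt.vanishing_of_dimH ρ h hdis htf hZ m hm ?_ M hM
    have h2 : (2 : ℝ) ≤ m := by exact_mod_cast hm
    have h3 : (m : ℝ≥0∞) = ENNReal.ofReal ((m : ℝ) - 1) + 1 := by
      rw [← ENNReal.ofReal_one, ← ENNReal.ofReal_add (by linarith) zero_le_one]
      simp
    rw [h3] at hcon
    exact lt_of_add_lt_add_right hcon

end Pool.Agent.Results.MP_8db1a4_gt.CdLeHdim
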